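import Mathlib

/-!
# Additive covering of `Alg_n(X)` for approximate subfields

For every approximate subfield `X` (finite or infinite) of a field and every `n` the set
`Alg_n(X)` is covered by finitely many additive translates of `X`.

Proof. Let `X` be infinite and let `G` be the set of all `t` such that `t X` is covered by finitely
many translates of `X`. It is a subring containing `X`, and it contains the inverses of the non-zero
elements of `X`. By the pigeonhole principle every non-zero `b ∈ G` satisfies `b d = w` with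
non-zero `d, w ∈ X - X ⊆ E X`. Applied to the powers of `b` this gives `b⁻¹ ∈ G`; so `G` is a field.
Applied uniformly to the non-zero elements of `S_n(X)`, it covers their inverses by finitely
many dilates `f X` with `f ∈ G`.
-/

set_option autoImplicit false

open Set Pointwise

namespace Pool.Agent.Results.MP_a5fc84_co.AlgCovered

variable {F : Type*} [Field F]

/-- `X` is an approximate subfield of `F`: `0 ∈ X = -X`, `1 ∈ X`, the set of the non-zero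
elements of `X` is closed under inversion, and `X X + X ⊆ E X ∩ (E + X)` for a finite set `E`. -/
structure IsApproxSubfield (X : Set F) : Prop where
  zero_mem : (0 : F) ∈ X
  neg_eq : X = -X
  one_mem : (1 : F) ∈ X
  inv_eq : X \ {0} = (X \ {0})⁻¹
  cover : ∃ E : Set F, E.Finite ∧ X * X + X ⊆ (E * X) ∩ (E + X)

/-- `S_n(X)`: sums of at most `n` terms, each a product of at most `n` elements of `X`. -/
def S (n : ℕ) (X : Set F) : Set F :=
  {s | ∃ L : List (List F), L.length ≤ n ∧ (∀ l ∈ L, l.length ≤ n ∧ ∀ x ∈ l, x ∈ X) ∧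
    s = (L.map List.prod).sum}

/-- `Alg_n(X)`: the quotients `a / b` with `a, b ∈ S_n(X)`, `b ≠ 0`. -/
def Alg (n : ℕ) (X : Set F) : Set F := {c | ∃ a ∈ S n X, ∃ b ∈ S n X, b ≠ 0 ∧ c = a / b}

/-- `Y` is covered by finitely many additive translates of `X`. -/
def Cov (X Y : Set F) : Prop := ∃ T : Set F, T.Finite ∧ Y ⊆ T + X

variable {X : Set F}

lemma Cov.mono {Y Z : Set F} (h : Cov X Z) (hYZ : Y ⊆ Z) : Cov X Y := by
  obtain ⟨T, hT, h⟩ := h
  exact ⟨T, hT, hYZ.trans h⟩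

lemma Cov.union {Y Z : Set F} (hY : Cov X Y) (hZ : Cov X Z) : Cov X (Y ∪ Z) := by
  obtain ⟨T, hT, h⟩ := hY
  obtain ⟨T', hT', h'⟩ := hZ
  refine ⟨T ∪ T', hT.union hT', union_subset (h.trans ?_) (h'.trans ?_)⟩
  · exact add_subset_add_right subset_union_left
  · exact add_subset_add_right subset_union_right

lemma Cov.biUnion {ι : Type*} {I : Set ι} (hI : I.Finite) {Y : ι → Set F}
    (h : ∀ i ∈ I, Cov X (Y i)) : Cov X (⋃ i ∈ I, Y i) := by
  choose! T hT h using h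
  refine ⟨⋃ i ∈ I, T i, hI.biUnion hT, ?_⟩
  refine iUnion₂_subset fun i hi => (h i hi).trans ?_
  exact add_subset_add_right (subset_biUnion_of_mem (u := T) hi)

lemma Cov.of_finite (h0 : (0 : F) ∈ X) {Y : Set F} (hY : Y.Finite) : Cov X Y :=
  ⟨Y, hY, fun y hy => ⟨y, hy, 0, h0, add_zero y⟩⟩

namespace IsApproxSubfield

variable (hX : IsApproxSubfield X)

include hX

lemma neg_mem {x : F} (hx : x ∈ X) : -x ∈ X := by
  have h := hX.neg_eq
  rw [h] at hx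
  exact hx

lemma inv_mem {x : F} (hx : x ∈ X) (h0 : x ≠ 0) : x⁻¹ ∈ X := by
  have h : x ∈ X \ {0} := ⟨hx, h0⟩
  rw [hX.inv_eq] at h
  exact h.1

lemma cov_add_self : Cov X (X + X) := by
  obtain ⟨E, hE, h⟩ := hX.cover
  refine ⟨E, hE, ?_⟩
  rintro _ ⟨x, hx, y, hy, rfl⟩
  exact (h ⟨x, ⟨x, hx, 1, hX.one_mem, mul_one x⟩, y, hy, rfl⟩).2

lemma cov_mul_self : Cov X (X * X) := by
  obtain ⟨E, hE, h⟩ := hX.cover
  refine ⟨E, hE, ?_⟩
  rintro _ ⟨x, hx, y, hy, rfl⟩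
  exact (h ⟨x * y, ⟨x, hx, y, hy, rfl⟩, 0, hX.zero_mem, add_zero _⟩).2

lemma cov_add {Y Z : Set F} (hY : Cov X Y) (hZ : Cov X Z) : Cov X (Y + Z) := by
  obtain ⟨T, hT, h⟩ := hY
  obtain ⟨T', hT', h'⟩ := hZ
  obtain ⟨E, hE, hXX⟩ := hX.cov_add_self
  refine ⟨(T + T') + E, (hT.add hT').add hE, ?_⟩
  rintro _ ⟨y, hy, z, hz, rfl⟩
  obtain ⟨t, ht, x, hx, rfl⟩ := h hy
  obtain ⟨t', ht', x', hx', rfl⟩ := h' hz
  obtain ⟨e, he, w, hw, hew⟩ := hXX ⟨x, hx, x', hx', rfl⟩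
  refine ⟨t + t' + e, ⟨t + t', ⟨t, ht, t', ht', rfl⟩, e, he, rfl⟩, w, hw, ?_⟩
  simp only at hew ⊢
  rw [add_assoc (t + t'), hew]
  ring

/-- the ring `G` of all `t` for which `t X` is covered by finitely many translates of `X` -/
def G : Subring F where
  carrier := {t | Cov X ((t * ·) '' X)}
  mul_mem' := by
    rintro s t hs ⟨T, hT, h⟩
    have h1 : Cov X ((s * ·) '' T) := Cov.of_finite hX.zero_mem (hT.image _)
    refine (hX.cov_add h1 hs).mono ?_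
    rintro _ ⟨x, hx, rfl⟩
    obtain ⟨a, ha, b, hb, hab⟩ := h ⟨x, hx, rfl⟩
    refine ⟨s * a, ⟨a, ha, rfl⟩, s * b, ⟨b, hb, rfl⟩, ?_⟩
    simp only at hab ⊢
    rw [mul_assoc, ← hab, mul_add]
  one_mem' := ⟨{0}, finite_singleton 0, by
    rintro _ ⟨x, hx, rfl⟩
    exact ⟨0, rfl, x, hx, by simp⟩⟩
  add_mem' := by
    rintro s t hs ht
    refine (hX.cov_add hs ht).mono ?_
    rintro _ ⟨x, hx, rfl⟩
    exact ⟨s * x, ⟨x, hx, rfl⟩, t * x, ⟨x, hx, rfl⟩, by ring⟩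
  zero_mem' := Cov.of_finite hX.zero_mem (by
    refine (finite_singleton (0 : F)).subset ?_
    rintro _ ⟨x, hx, rfl⟩
    simp)
  neg_mem' := by
    rintro t ht
    refine Cov.mono ht ?_
    rintro _ ⟨x, hx, rfl⟩
    exact ⟨-x, hX.neg_mem hx, by ring⟩

lemma mem_G {t : F} : t ∈ hX.G ↔ Cov X ((t * ·) '' X) := Iff.rfl

lemma X_sub_G {x : F} (hx : x ∈ X) : x ∈ hX.G :=
  hX.cov_mul_self.mono (by
    rintro _ ⟨y, hy, rfl⟩
    exact ⟨x, hx, y, hy, rfl⟩)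

/-- covers of subsets of `G` can be chosen in `G` -/
lemma cov_in_G {Y : Set F} (hY : Cov X Y) (hYG : ∀ y ∈ Y, y ∈ hX.G) :
    ∃ T : Set F, T.Finite ∧ (∀ t ∈ T, t ∈ hX.G) ∧ Y ⊆ T + X := by
  obtain ⟨T, hT, h⟩ := hY
  refine ⟨{t ∈ T | t ∈ hX.G}, hT.subset (sep_subset _ _), fun t ht => ht.2, ?_⟩
  intro y hy
  obtain ⟨t, ht, x, hx, rfl⟩ := h hy
  refine ⟨t, ⟨ht, ?_⟩, x, hx, rfl⟩
  have h1 := hX.G.sub_mem (hYG _ hy) (hX.X_sub_G hx)
  simpa using h1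

lemma cov_mul {Y Z : Set F} (hY : Cov X Y) (hYG : ∀ y ∈ Y, y ∈ hX.G) (hZ : Cov X Z)
    (hZG : ∀ z ∈ Z, z ∈ hX.G) : Cov X (Y * Z) := by
  obtain ⟨T, hT, hTG, h⟩ := hX.cov_in_G hY hYG
  obtain ⟨T', hT', hTG', h'⟩ := hX.cov_in_G hZ hZG
  have h1 : Cov X (T * T') := Cov.of_finite hX.zero_mem (hT.mul hT')
  have h2 : Cov X (⋃ t ∈ T, (t * ·) '' X) := Cov.biUnion hT fun t ht => hTG t ht
  have h3 : Cov X (⋃ t ∈ T', (t * ·) '' X) := Cov.biUnion hT' fun t ht => hTG' t ht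
  refine (hX.cov_add (hX.cov_add (hX.cov_add h1 h2) h3) hX.cov_mul_self).mono ?_
  rintro _ ⟨y, hy, z, hz, rfl⟩
  obtain ⟨t, ht, x, hx, rfl⟩ := h hy
  obtain ⟨t', ht', x', hx', rfl⟩ := h' hz
  refine ⟨t * t' + t * x' + t' * x, ⟨t * t' + t * x', ⟨t * t', ⟨t, ht, t', ht', rfl⟩, t * x', ?_,
    rfl⟩, t' * x, ?_, rfl⟩, x * x', ⟨x, hx, x', hx', rfl⟩, by simp only; ring⟩
  · exact mem_biUnion ht ⟨x', hx', rfl⟩
  · exact mem_biUnion ht' ⟨x, hx, rfl⟩

/-- products of lists -/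
lemma cov_prod (n : ℕ) : Cov X {p | ∃ l : List F, l.length = n ∧ (∀ x ∈ l, x ∈ X) ∧ p = l.prod} ∧
    ∀ p ∈ {p | ∃ l : List F, l.length = n ∧ (∀ x ∈ l, x ∈ X) ∧ p = l.prod}, p ∈ hX.G := by
  induction n with
  | zero =>
    refine ⟨Cov.of_finite hX.zero_mem ((finite_singleton (1 : F)).subset ?_), ?_⟩
    · rintro _ ⟨l, hl, -, rfl⟩
      rw [List.length_eq_zero_iff] at hl
      subst hl
      simp
    · rintro _ ⟨l, hl, -, rfl⟩
      rw [List.length_eq_zero_iff] at hl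
      subst hl
      simp [hX.G.one_mem]
  | succ n ih =>
    have h0 : Cov X X := ⟨{0}, finite_singleton 0, fun x hx => ⟨0, rfl, x, hx, zero_add x⟩⟩
    constructor
    · refine (hX.cov_mul h0 (fun x hx => hX.X_sub_G hx) ih.1 ih.2).mono ?_
      rintro _ ⟨l, hl, hlX, rfl⟩
      obtain ⟨a, l, rfl⟩ : ∃ a l', l = a :: l' := by
        cases l with
        | nil => simp at hl
        | cons a l => exact ⟨a, l, rfl⟩
      refine ⟨a, hlX a (by simp), l.prod, ⟨l, by simpa using hl, fun x hx => hlX x (by simp [hx]), rfl⟩, ?_⟩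
      simp
    · rintro _ ⟨l, hl, hlX, rfl⟩
      exact hX.G.list_prod_mem fun x hx => hX.X_sub_G (hlX x hx)

lemma cov_prod_le (n : ℕ) :
    Cov X {p | ∃ l : List F, l.length ≤ n ∧ (∀ x ∈ l, x ∈ X) ∧ p = l.prod} := by
  refine (Cov.biUnion (finite_Iic n) fun k _ => (hX.cov_prod k).1).mono ?_
  rintro _ ⟨l, hl, hlX, rfl⟩
  exact mem_biUnion (show l.length ∈ Iic n from hl) ⟨l, rfl, hlX, rfl⟩

/-- sums of products -/
lemma cov_sum (n k : ℕ) : Cov X {s | ∃ L : List (List F), L.length = k ∧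
    (∀ l ∈ L, l.length ≤ n ∧ ∀ x ∈ l, x ∈ X) ∧ s = (L.map List.prod).sum} := by
  induction k with
  | zero =>
    refine Cov.of_finite hX.zero_mem ((finite_singleton (0 : F)).subset ?_)
    rintro _ ⟨L, hL, -, rfl⟩
    rw [List.length_eq_zero_iff] at hL
    subst hL
    simp
  | succ k ih =>
    refine (hX.cov_add (hX.cov_prod_le n) ih).mono ?_
    rintro _ ⟨L, hL, hLX, rfl⟩
    obtain ⟨l, L, rfl⟩ : ∃ l L', L = l :: L' := by
      cases L with
      | nil => simp at hL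
      | cons l L => exact ⟨l, L, rfl⟩
    refine ⟨l.prod, ⟨l, (hLX l (by simp)).1, (hLX l (by simp)).2, rfl⟩, _,
      ⟨L, by simpa using hL, fun l' hl' => hLX l' (by simp [hl']), rfl⟩, ?_⟩
    simp

lemma cov_S (n : ℕ) : Cov X (S n X) := by
  refine (Cov.biUnion (finite_Iic n) fun k _ => hX.cov_sum n k).mono ?_
  rintro _ ⟨L, hL, hLX, rfl⟩
  exact mem_biUnion (show L.length ∈ Iic n from hL) ⟨L, rfl, hLX, rfl⟩

lemma S_sub_G (n : ℕ) : ∀ s ∈ S n X, s ∈ hX.G := by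
  rintro _ ⟨L, -, hLX, rfl⟩
  refine hX.G.list_sum_mem fun p hp => ?_
  obtain ⟨l, hl, rfl⟩ := List.mem_map.1 hp
  exact hX.G.list_prod_mem fun x hx => hX.X_sub_G ((hLX l hl).2 x hx)

/-- a difference of elements of `X` is in `E X` -/
lemma exists_E : ∃ E : Set F, E.Finite ∧ ∀ x ∈ X, ∀ y ∈ X, x ≠ y →
    ∃ e ∈ E, ∃ w ∈ X, w ≠ 0 ∧ e ≠ 0 ∧ e ∈ hX.G ∧ x - y = e * w := by
  obtain ⟨E, hE, h⟩ := hX.cover
  refine ⟨E, hE, fun x hx y hy hne => ?_⟩
  obtain ⟨e, he, w, hw, hew⟩ :=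
    (h ⟨x, ⟨x, hx, 1, hX.one_mem, mul_one x⟩, -y, hX.neg_mem hy, rfl⟩).1
  simp only at hew
  have h1 : x - y = e * w := by rw [hew]; ring
  have h2 : x - y ≠ 0 := sub_ne_zero.2 hne
  have h3 : w ≠ 0 := by
    rintro rfl
    exact h2 (by rw [h1, mul_zero])
  have h4 : e ≠ 0 := by
    rintro rfl
    exact h2 (by rw [h1, zero_mul])
  refine ⟨e, he, w, hw, h3, h4, ?_, h1⟩
  have h5 : e = (x - y) * w⁻¹ := by rw [h1, mul_assoc, mul_inv_cancel₀ h3, mul_one]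
  rw [h5]
  exact hX.G.mul_mem (hX.G.sub_mem (hX.X_sub_G hx) (hX.X_sub_G hy)) (hX.X_sub_G (hX.inv_mem hw h3))

/-- the pigeonhole principle: if `b X` is covered by the translates by `T`, and `P ⊆ X` has more
elements than `T`, then `b (x - x') = y - y'` for some `x ≠ x'` in `P` and `y, y' ∈ X`. -/
lemma pigeonhole {T : Finset F} {P : Finset F} (hP : ∀ x ∈ P, x ∈ X) (hcard : T.card < P.card)
    {b : F} (hb : ∀ x ∈ X, b * x ∈ (T : Set F) + X) :
    ∃ x ∈ P, ∃ x' ∈ P, x ≠ x' ∧ ∃ y ∈ X, ∃ y' ∈ X, b * (x - x') = y - y' := by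
  have h : ∀ x, ∃ t, x ∈ P → t ∈ T ∧ ∃ y ∈ X, t + y = b * x := by
    intro x
    by_cases hx : x ∈ P
    · obtain ⟨t, ht, y, hy, h⟩ := hb x (hP x hx)
      exact ⟨t, fun _ => ⟨ht, y, hy, h⟩⟩
    · exact ⟨0, fun h => absurd h hx⟩
  choose f hf using h
  obtain ⟨x, hx, x', hx', hne, he⟩ :=
    Finset.exists_ne_map_eq_of_card_lt_of_maps_to hcard fun x hx => (hf x hx).1
  obtain ⟨-, y, hy, h1⟩ := hf x hx
  obtain ⟨-, y', hy', h2⟩ := hf x' hx'
  refine ⟨x, hx, x', hx', hne, y, hy, y', hy', ?_⟩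
  rw [mul_sub, ← h1, ← h2, he]
  ring

/-- for infinite `X` the ring `G` is a field -/
lemma inv_mem_G (hinf : X.Infinite) {g : F} (hg : g ∈ hX.G) (h0 : g ≠ 0) : g⁻¹ ∈ hX.G := by
  classical
  obtain ⟨E, hE, hEX⟩ := hX.exists_E
  -- for every `j`, `g ^ j = (e w) / (e' w')`
  have key : ∀ j : ℕ, ∃ q ∈ E ×ˢ E, ∃ w ∈ X, ∃ w' ∈ X, w ≠ 0 ∧ w' ≠ 0 ∧ q.1 ≠ 0 ∧ q.2 ≠ 0 ∧
      g ^ j * (q.2 * w') = q.1 * w := by
    intro j
    obtain ⟨T, hT, h⟩ := hX.mem_G.1 (hX.G.pow_mem hg j)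
    obtain ⟨P, hPX, hPc⟩ := hinf.exists_subset_card_eq (hT.toFinset.card + 1)
    obtain ⟨x, hx, x', hx', hne, y, hy, y', hy', he⟩ := hX.pigeonhole (T := hT.toFinset) (P := P)
      (fun x hx => hPX hx) (by omega) (b := g ^ j) (fun x hx => by
        rw [hT.coe_toFinset]
        exact h ⟨x, hx, rfl⟩)
    obtain ⟨e', he', w', hw', hw0', he0', -, h1⟩ := hEX x (hPX hx) x' (hPX hx') hne
    have hyy : y ≠ y' := by
      rintro rfl
      rw [sub_self] at he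
      exact mul_ne_zero (pow_ne_zero j h0) (sub_ne_zero.2 hne) he
    obtain ⟨e, he1, w, hw, hw0, he0, -, h2⟩ := hEX y hy y' hy' hyy
    exact ⟨(e, e'), ⟨he1, he'⟩, w, hw, w', hw', hw0, hw0', he0, he0', by rw [← h1, ← h2, he]⟩
  choose q hq w hw w' hw' hw0 hw0' hq1 hq2 hqw using key
  have hmaps : MapsTo q univ (E ×ˢ E) := fun j _ => hq j
  obtain ⟨i, -, j, -, hij, hqij⟩ :=
    infinite_univ.exists_lt_map_eq_of_mapsTo hmaps (hE.prod hE)
  have hi := hqw i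
  have hj := hqw j
  rw [← hqij] at hj
  -- `g ^ (j - i) = (w j * w' i) / (w' j * w i)`
  have h1 : g ^ (j - i) * (w' j * w i) = w j * w' i := by
    have h2 : g ^ j = g ^ (j - i) * g ^ i := by rw [← pow_add, Nat.sub_add_cancel hij.le]
    rw [h2] at hj
    have h3 : (g ^ (j - i) * (w' j * w i)) * ((q i).1 * (q i).2 * g ^ i) =
        (w j * w' i) * ((q i).1 * (q i).2 * g ^ i) := by
      calc (g ^ (j - i) * (w' j * w i)) * ((q i).1 * (q i).2 * g ^ i)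
          = (g ^ (j - i) * g ^ i * ((q i).2 * w' j)) * ((q i).1 * w i) := by ring
        _ = ((q i).1 * w j) * (g ^ i * ((q i).2 * w' i)) := by rw [hj, hi]
        _ = _ := by ring
    have h4 : (q i).1 * (q i).2 * g ^ i ≠ 0 :=
      mul_ne_zero (mul_ne_zero (hq1 i) (hq2 i)) (pow_ne_zero i h0)
    exact mul_right_cancel₀ h4 h3
  have h5 : (g ^ (j - i))⁻¹ ∈ hX.G := by
    have h6 : (g ^ (j - i))⁻¹ = (w' j * w i) * ((w j)⁻¹ * (w' i)⁻¹) := by
      rw [inv_eq_iff_eq_inv, mul_inv, mul_inv, mul_inv, inv_inv, inv_inv]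
      have h7 : g ^ (j - i) = w j * w' i * (w' j * w i)⁻¹ :=
        (eq_mul_inv_iff_mul_eq₀ (mul_ne_zero (hw0' j) (hw0 i))).2 h1
      rw [h7, mul_inv]
      ring
    rw [h6]
    exact hX.G.mul_mem (hX.G.mul_mem (hX.X_sub_G (hw' j)) (hX.X_sub_G (hw i)))
      (hX.G.mul_mem (hX.X_sub_G (hX.inv_mem (hw j) (hw0 j)))
        (hX.X_sub_G (hX.inv_mem (hw' i) (hw0' i))))
  have h8 : g⁻¹ = g ^ (j - i - 1) * (g ^ (j - i))⁻¹ := by
    have h9 : j - i = (j - i - 1) + 1 := by omega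
    have h10 : g ^ (j - i) = g ^ (j - i - 1) * g := by rw [← pow_succ, ← h9]
    rw [h10, mul_inv, ← mul_assoc, mul_inv_cancel₀ (pow_ne_zero _ h0), one_mul]
  rw [h8]
  exact hX.G.mul_mem (hX.G.pow_mem hg _) h5

/-- the inverses of the non-zero elements of `S_n(X)` -/
lemma cov_inv (hinf : X.Infinite) (n : ℕ) : Cov X {c | ∃ b ∈ S n X, b ≠ 0 ∧ c = b⁻¹} := by
  classical
  obtain ⟨E, hE, hEX⟩ := hX.exists_E
  have h0 : Cov X X := ⟨{0}, finite_singleton 0, fun x hx => ⟨0, rfl, x, hx, zero_add x⟩⟩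
  obtain ⟨T, hT, hTX⟩ := hX.cov_mul (hX.cov_S n) (hX.S_sub_G n) h0 (fun x hx => hX.X_sub_G hx)
  obtain ⟨P, hPX, hPc⟩ := hinf.exists_subset_card_eq (hT.toFinset.card + 1)
  -- the finite set of the dilations
  let D : Set F := {f | ∃ x ∈ P, ∃ x' ∈ P, ∃ e ∈ E, e ∈ hX.G ∧ e ≠ 0 ∧ f = (x - x') * e⁻¹}
  have hD : D.Finite := by
    have h1 : ((fun z : F × F × F => (z.1 - z.2.1) * z.2.2⁻¹) ''
        ((P : Set F) ×ˢ (P : Set F) ×ˢ E)).Finite :=
      (P.finite_toSet.prod (P.finite_toSet.prod hE)).image _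
    refine h1.subset ?_
    rintro _ ⟨x, hx, x', hx', e, he, -, -, rfl⟩
    exact ⟨(x, x', e), ⟨hx, hx', he⟩, rfl⟩
  have hDG : ∀ f ∈ D, f ∈ hX.G := by
    rintro _ ⟨x, hx, x', hx', e, he, heG, he0, rfl⟩
    exact hX.G.mul_mem (hX.G.sub_mem (hX.X_sub_G (hPX hx)) (hX.X_sub_G (hPX hx')))
      (hX.inv_mem_G hinf heG he0)
  refine (Cov.biUnion hD fun f hf => hX.mem_G.1 (hDG f hf)).mono ?_
  rintro _ ⟨b, hb, hb0, rfl⟩
  obtain ⟨x, hx, x', hx', hne, y, hy, y', hy', he⟩ := hX.pigeonhole (T := hT.toFinset) (P := P)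
    (fun x hx => hPX hx) (by omega) (b := b) (fun x hx => by
      rw [hT.coe_toFinset]
      exact hTX ⟨b, hb, x, hx, rfl⟩)
  have hyy : y ≠ y' := by
    rintro rfl
    rw [sub_self] at he
    exact mul_ne_zero hb0 (sub_ne_zero.2 hne) he
  obtain ⟨e, he1, w, hw, hw0, he0, heG, h2⟩ := hEX y hy y' hy' hyy
  refine mem_biUnion (show (x - x') * e⁻¹ ∈ D from ⟨x, hx, x', hx', e, he1, heG, he0, rfl⟩)
    ⟨w⁻¹, hX.inv_mem hw hw0, ?_⟩
  show (x - x') * e⁻¹ * w⁻¹ = b⁻¹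
  rw [h2] at he
  have h3 : b * ((x - x') * e⁻¹ * w⁻¹) = 1 := by
    calc b * ((x - x') * e⁻¹ * w⁻¹) = (b * (x - x')) * (e⁻¹ * w⁻¹) := by ring
      _ = (e * w) * (e⁻¹ * w⁻¹) := by rw [he]
      _ = 1 := by field_simp
  exact eq_inv_of_mul_eq_one_right h3

end IsApproxSubfield

/-- For every approximate subfield `X` of a field, finite or infinite, and every `n`, the set
`Alg_n(X)` is covered by finitely many additive translates of `X`. -/
theorem result (X : Set F) (hX : IsApproxSubfield X) (n : ℕ) :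
    ∃ T : Set F, T.Finite ∧ Alg n X ⊆ T + X := by
  by_cases hinf : X.Infinite
  · have h1 := hX.cov_mul (hX.cov_S n) (hX.S_sub_G n) (hX.cov_inv hinf n) (by
      rintro _ ⟨b, hb, hb0, rfl⟩
      exact hX.inv_mem_G hinf (hX.S_sub_G n b hb) hb0)
    refine h1.mono ?_
    rintro _ ⟨a, ha, b, hb, hb0, rfl⟩
    exact ⟨a, ha, b⁻¹, ⟨b, hb, hb0, rfl⟩, (div_eq_mul_inv a b).symm⟩
  · -- finite `X`
    have hfin : X.Finite := not_infinite.1 hinf
    obtain ⟨T, hT, h⟩ := hX.cov_S n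
    have hS : (S n X).Finite := (hT.add hfin).subset h
    have hA : (Alg n X).Finite := by
      refine ((hS.prod hS).image fun z : F × F => z.1 / z.2).subset ?_
      rintro _ ⟨a, ha, b, hb, -, rfl⟩
      exact ⟨(a, b), ⟨ha, hb⟩, rfl⟩
    exact Cov.of_finite hX.zero_mem hA

end Pool.Agent.Results.MP_a5fc84_co.AlgCovered
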